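import Mathlib
import Pool.Agent.Lib.MP_6a4d09_co.Main

/-!
# A finest matroid subdivision of `Δ(3,9)` with a decomposable maximal cell

The answer to the question is negative: the hypersimplex `Δ(3,9)` has a finest matroid subdivision
(finest among all matroid subdivisions, regular or not) with a maximal cell `P_N` such that `P_N`
has a nontrivial matroid subdivision.
-/

set_option autoImplicit false

namespace Pool.Agent.Results.MP_6a4d09_co.DecomposableCell

open Pool.Agent.MatSub

theorem result : ∃ 𝒞 : Set (Set (Fin 9 → ℝ)), IsFinest (hypersimplex 3 9) 𝒞 ∧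
    ∃ N : Matroid (Fin 9), N.E = Set.univ ∧ IsMaximalCell 𝒞 (matroidPolytope N) ∧
      ¬ Indecomposable N :=
  main

end Pool.Agent.Results.MP_6a4d09_co.DecomposableCell
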